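import Pool.Agent.D0H7.FR.Final

/-!
# Jordan blocks of Frobenius, Newton polygons, Hodge numbers and the intersection form

Let `X` be a smooth projective variety over the field with `q = p ^ a` elements, `F` the Frobenius on
`V = H^w(X)` (coefficients in `K`, an algebraic closure of the field of `ℓ`-adic numbers) and `P` its
characteristic polynomial, which has integral coefficients (Deligne). Put `h j = h^{j, w - j}(X)` and
`width w h = 2 D`, `D = ∑_{j < w / 2} (w / 2 - j) h j`. The numbers `q ^ (w / 2) ζ` with a root of unity
`ζ` are called Tate eigenvalues, the others satisfy `NonTate`. The Jordan blocks of `F` for `α` have size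
at most `m` if and only if `F.maxGenEigenspace α = F.genEigenspace α m`.

1. If `α` is not a Tate eigenvalue then there are a slope `s < w / 2` of the Newton polygon of `P` and a
   positive integer `m` such that `a s m` is an integer and `m` times the multiplicity of `α` is at most
   the length of the edge of slope `s`.
2. The sum of the multiplicities of pairwise non-conjugate eigenvalues which are not Tate eigenvalues is
   at most `2 a D`, and at most `a D` if `a w` is even.
3. Hence `F` has no Jordan block of size at least two for eigenvalues which are not Tate eigenvalues, if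
   * every edge of slope `s < w / 2` of the Newton polygon has length smaller than `2 m`, where `m` is
     the smallest positive integer such that `a s m` is an integer (`SimpleSlopes`), for example if `X`
     is ordinary and `h j ≤ 1` for `j < w / 2`, or if `w = 2` and `X` has `h^{0,2} = 1` and a height
     prime to `a`;
   * or `2 a D ≤ 1`; or `a w` is even and `a D ≤ 1`, for example if `w = 2 k`, `a = 1`, `h (k - 1) = 1` and
     `h j = 0` for `j < k - 1`: varieties of K3 type over the field with `p` elements, among them all
     surfaces with `p_g = 1` (`k = 1`).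
4. If `dim X ≥ w` then for all `n`, all `c` with `c ^ 2 = q ^ (w n)` and all `j` with `w + j` odd the
   endomorphism `(F ^ n - c) ^ j` has even rank on the generalised eigenspace for `c`. For `w = 2 k`,
   `j = 1`: the order of the pole at `s = k` of the zeta function of `X` and the dimension of the space of
   Tate classes (the kernel of `F - q ^ k`) have the same parity. More generally the number of Jordan
   blocks of size `i` of `F ^ n` for `c` is even for each even `i` (for each odd `i`, if `w` is odd).
5. Let `w = 2 k` and let `N` be a space of algebraic classes on which the intersection form is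
   nondegenerate, for `k = 1` for example the span of all divisor classes. If for all `n` the order of
   the pole at `s = k` of the zeta function over the field with `q ^ n` elements is at most `dim N + δ`,
   then the Jordan blocks of `F` for Tate eigenvalues have size at most `max(δ, 1)`, and at most `δ - 1`
   if `δ ≥ 2` is even. In particular there are no Jordan blocks of size at least two if `δ = 2`.
6. Let `Y` be a complete variety, possibly singular, with a map `H^w(Y) → H^w(X)` whose kernel is the part
   of weight less than `w` (for example a complete surface with the desingularisation `X`, if `w = 2`).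
   Then the bounds for the Jordan blocks of `F` also hold for the eigenvalues of weight `w` on `H^w(Y)`.
   If `F` has no Jordan blocks of size at least two (see 3 and 5) and Frobenius is semisimple on the
   part of weight less than `w`, then Frobenius and its powers (the Frobenius endomorphisms over the
   finite extensions) are semisimple on `H^w(Y)`. This includes the case `Y = X`.
-/

set_option autoImplicit false

namespace Pool.Agent.Results.MP_b685ef_ag.JordanBlocks

open Polynomial Module Pool.Agent.D0H7.FR

theorem result (p a w : ℕ) [Fact p.Prime] (ha : 0 < a) (h : ℕ → ℕ) (P : ℤ[X])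
    (hP : IsFrobPoly p a w h P) (K : Type) [Field K] [CharZero K] [IsAlgClosed K]
    (V : Type) [AddCommGroup V] [Module K V] [FiniteDimensional K V]
    (F : Module.End K V) (hF : F.charpoly = P.map (Int.castRingHom K)) :
    -- 1. the Newton polygon
    (∀ α : K, NonTate p a w α → F.HasEigenvalue α →
      ∃ s : ℚ, 2 * s < w ∧ ∃ m : ℕ, 0 < m ∧ (∃ n : ℤ, a * s * m = n) ∧
        m * finrank K (F.maxGenEigenspace α) ≤ slopeMult p a P s) ∧
    -- 2. the Hodge numbers
    (∀ S : Finset K, (∀ α ∈ S, NonTate p a w α) →
      (∀ α ∈ S, ∀ β ∈ S, minpoly ℤ α = minpoly ℤ β → α = β) →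
      ∑ α ∈ S, finrank K (F.maxGenEigenspace α) ≤ a * width w h ∧
        (Even (a * w) → 2 * ∑ α ∈ S, finrank K (F.maxGenEigenspace α) ≤ a * width w h)) ∧
    -- 3. no Jordan blocks outside the Tate eigenvalues
    (SimpleSlopes p a w P ∨ a * width w h ≤ 1 ∨ (Even (a * w) ∧ a * width w h ≤ 2) →
      ∀ α : K, NonTate p a w α → F.maxGenEigenspace α = F.eigenspace α) ∧
    -- 4. parity
    (∀ B : LinearMap.BilinForm K V, Polarised p a w F B → ∀ (n : ℕ) (c : K),
      c ^ 2 = (p : K) ^ (a * w * n) → ∀ j : ℕ, Odd (w + j) →
        Even (finrank K ((F ^ n).maxGenEigenspace c) - finrank K ((F ^ n).genEigenspace c j))) ∧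
    -- 5. Jordan blocks for Tate eigenvalues
    (∀ (k : ℕ) (B : LinearMap.BilinForm K V) (N : Submodule K V) (δ m : ℕ), w = 2 * k →
      Polarised p a w F B → AlgClasses p a k F B N →
      (∀ n : ℕ, 0 < n →
        (F ^ n).charpoly.rootMultiplicity ((p : K) ^ (a * k * n)) ≤ finrank K N + δ) →
      1 ≤ m → (δ ≤ m ∨ (Even δ ∧ δ ≤ m + 1)) →
      ∀ α : K, ¬ NonTate p a w α → F.maxGenEigenspace α = F.genEigenspace α m) ∧
    -- 6. complete varieties
    (∀ (U : Type) [AddCommGroup U] [Module K U] [FiniteDimensional K U] (Φ : Module.End K U)
      (π : U →ₗ[K] V), LowerWeights p a w F Φ π →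
      (∀ (α : K) (m : ℕ), F.HasEigenvalue α → F.maxGenEigenspace α = F.genEigenspace α m →
        Φ.maxGenEigenspace α = Φ.genEigenspace α m) ∧
      ((∀ α : K, F.maxGenEigenspace α = F.eigenspace α) →
        (∀ (hst : ∀ u ∈ LinearMap.ker π, Φ u ∈ LinearMap.ker π),
          Module.End.IsSemisimple (Φ.restrict hst)) →
        ∀ r : ℕ, (Φ ^ r).IsSemisimple)) := by
  refine ⟨fun α hα hev => part_slopes F ha hP hF α hα hev, fun S hS hinj => part_hodge F hP hF S hS hinj,
    fun hsmall α hα => part_simple F ha hP hF hsmall α hα,
    fun B hB n c hc j hj => part_parity F B hB n c hc j hj, ?_, ?_⟩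
  · rintro k B N δ m rfl hB hN hpole hm hδ α hα
    exact part_tate F k B N hB hN δ m hm hδ hpole α hα
  · intro U _ _ _ Φ π hU
    refine ⟨fun α m hev hm => complete_blocks F hP hF Φ π hU α hev m hm, fun hall hker r => ?_⟩
    exact (complete_semisimple F hP hF (isSemisimple_of_all F hall) Φ π hU hker).pow r

end Pool.Agent.Results.MP_b685ef_ag.JordanBlocks
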