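import Pool.Agent.D0H89.OF.Jdim
import Pool.Agent.D0H89.OF.Nilr
import Pool.Agent.D0H89.OF.Blkr
import Pool.Agent.D0H89.OF.Cnj

/-!
# One fibre decides: the Jordan types of Frobenius in families

Let `f : X → S` be a proper morphism, where `S` is a connected normal scheme of finite type over a finite
field, such that the sheaves `V_ℓ = ⊕ Rⁱ f_* ℚ̄_ℓ` (or `Rⁱ f_* ℚ̄_ℓ` for one `i`) are lisse (every scheme of
finite type over a finite field is the union of finitely many locally closed `S` with this property,
for each `ℓ`; the fibres may be singular). The inputs, which are the fields of the structures `Base` and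
`Sheaf`, are: the weight filtration `W` of `V_ℓ`, stable under `π₁(S)` (`ρ` is block triangular in a
basis adapted to `W`), the semisimplicity of the pure graded pieces as representations of the geometric
fundamental group and the different weights of the Frobenius elements on them (Deligne); and
Chebotarev's density theorem (Serre). For a smooth `f` the characteristic polynomials of the Frobenius
elements do not depend on `ℓ` (Deligne), in particular the numbers `num x` of their distinct roots.

Theorem. (1) `MaxMod num U`, the set of the closed points `x` such that `num x` is maximal among the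
closed points with the same Frobenius class modulo `U`, has Dirichlet density `1` for all sufficiently
small open normal subgroups `U` of `π₁(S)`.
(2) For each `ℓ` there is exactly one nilpotent endomorphism `d` of the lisse sheaf `gr V_ℓ` such that
`ρ(γ) exp(-deg(γ) d)` is semisimple, and it governs the Jordan blocks of all the Frobenius elements: let
`λ_i(x)` be the sizes of the Jordan blocks of Frobenius on the cohomology of the fibre over `x`. Then
`∑_i min(λ_i(x), k) ≤ dim ker d ^ k` for all closed points `x` and all `k` (the partition `λ(x)` dominates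
the one of `d`), with equality for the `x ∈ MaxMod num U`, for every open normal `U` (for example
`U = π₁(S)`), for which `exp(deg(x) d)` is the unipotent part of the Frobenius element. So the
following are equivalent: Frobenius is semisimple for ONE closed fibre; `gr V_ℓ` is a semisimple
representation of `π₁(S)`; Frobenius is semisimple for the fibres over a set of density `1`; `d = 0`.
(3) If for each `ℓ` there is one closed fibre such that Frobenius is semisimple on its `ℓ`-adic
cohomology, then 100 percent of the closed fibres have this property for all `ℓ` simultaneously.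

The proof that generic Frobenius elements of a semisimple representation are semisimple
(`Pool/Agent/D0H89/OF/Key.lean`): let `ρ(g) = s exp(N)` be the Jordan decomposition, and
consider the determinants of the traces `tr p_a(M) q_b(M)`, `M = ρ(g^k h)`, as exponential polynomials in
`k`; their derivatives with respect to `N` give `tr(N_x N_y) = 0` and `[N_x, N_y] ∈ L` for the conjugates
`N_x = ρ(x) N ρ(x)⁻¹` and their span `L`. By Cartan's criterion `L` is a solvable Lie algebra, stable under
`ρ(Γ)`, and as `ρ` is semisimple, `N = 0`. The endomorphism `d`: let `ρ(g) = s exp(n)` for an element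
`g` of degree `1`; `[n, 𝔄] ⊆ 𝔄` for the centralizer `𝔄` of the geometric group, and `d` is the orthogonal
projection of `n` to `𝔄` for the trace form.

The modules `LIE`, `COMP` are due to helper21, `JORD`, `PROF` to helper35, `GRAM0`, `GRAM1`, `RAD`, `MIX`,
`SIM` to helper52, `ONE`, `ONE2`, `DENS`, `TRN` to helper98, `DEC` to helper2, `LOGB`, `NIL` to helper9,
`BLK`, `UNQ` to helper87.
-/

set_option autoImplicit false

open MeasureTheory

namespace Pool.Agent.Results.MP_b685ef_ag.JordanTypesInFamilies

open Pool.Agent.D0H89.OF

section defs

variable {P Γ : Type} [Group Γ] [TopologicalSpace Γ] [IsTopologicalGroup Γ] [MeasurableSpace Γ]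
  {μ : Measure Γ} {S : Base P Γ μ} {ι K : Type} [Fintype ι] [DecidableEq ι] [Field K] [CharZero K]
  [TopologicalSpace K]

/-- The unique nilpotent endomorphism `d` of `gr V` such that `ρ(γ) exp(-deg(γ) d)` is semisimple
governs the Jordan types of the Frobenius elements. -/
structure Governs (V : Sheaf S ι K) (num : P → ℕ) (d : Matrix ι ι K) : Prop where
  isLog : V.IsLog d
  unique : ∀ d', V.IsLog d' → d' = d
  /-- at all closed points: `∑_i min(λ_i(x), k) ≤ dim ker d ^ k` -/
  le : ∀ (x : P) (k : ℕ), jordanSum k (V.ρ (S.frob x)) ≤ kerDim k d
  /-- equality at the points of `MaxMod num U` -/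
  eq : ∀ U : Subgroup Γ, U.Normal → IsOpen (U : Set Γ) → ∀ x ∈ S.MaxMod num U, ∀ k : ℕ,
    jordanSum k (V.ρ (S.frob x)) = kerDim k d
  /-- the unipotent part at the points of `MaxMod num U` is `exp(deg(x) d)` -/
  unip : ∀ U : Subgroup Γ, U.Normal → IsOpen (U : Set Γ) → ∀ x ∈ S.MaxMod num U,
    IsSS (grM V.wt (V.ρ (S.frob x)) * IsNilpotent.exp (-(S.degP x : K) • d))
  /-- one fibre decides -/
  tfae : [V.Good.Nonempty, V.Arith, HasDensity S.nm S.dim V.Good 1, d = 0].TFAE

end defs

/-- **Jordan types of Frobenius in families.** Let `V l`, `l ∈ L`, be lisse sheaves on `S`, for example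
`⊕ Rⁱ f_* ℚ̄_ℓ` for a proper morphism `f`, for which the number `num x` of the different eigenvalues of
Frobenius does not depend on `l`. (1) For all sufficiently small open normal subgroups `U` of `π₁(S)` the
set `MaxMod num U` has Dirichlet density `1`. (2) For each `l` there is exactly one nilpotent endomorphism
`d` of `gr (V l)` such that `ρ(γ) exp(-deg(γ) d)` is semisimple. For all closed points `x` and all `k` we
have `∑_z dim ker (Frob_x - z) ^ k ≤ dim ker d ^ k`. If `x ∈ MaxMod num U` for an open normal subgroup `U`,
then there is equality for all `k`, and `Frob_x exp(-deg(x) d)` is semisimple on the graded space. The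
following are equivalent: `Frob_x` is semisimple for one `x`; the graded pieces of `V l` are semisimple;
`Frob_x` is semisimple for a set of closed points of density `1`; `d = 0`. (3) If for each `l` there is an
`x` such that `Frob_x` is semisimple on `V l`, then the set of the `x` such that `Frob_x` is semisimple
on all `V l` has the density `1`. -/
theorem result {P Γ : Type} [Nonempty P] [Group Γ] [TopologicalSpace Γ]
    [IsTopologicalGroup Γ] [CompactSpace Γ] [T2Space Γ] [TotallyDisconnectedSpace Γ]
    [MeasurableSpace Γ] [BorelSpace Γ] {μ : Measure Γ} [IsProbabilityMeasure μ]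
    [μ.IsHaarMeasure] (S : Base P Γ μ)
    {L : Type} [Nonempty L] {ι K : L → Type} [∀ l, Fintype (ι l)] [∀ l, DecidableEq (ι l)]
    [∀ l, Field (K l)] [∀ l, IsAlgClosed (K l)] [∀ l, CharZero (K l)]
    [∀ l, TopologicalSpace (K l)] [∀ l, IsTopologicalRing (K l)] [∀ l, T2Space (K l)]
    (V : ∀ l, Sheaf S (ι l) (K l)) (num : P → ℕ)
    (hnum : ∀ l x, numEig ((V l).ρ (S.frob x)) = num x) :
    (∃ U₀ : Subgroup Γ, U₀.Normal ∧ IsOpen (U₀ : Set Γ) ∧
      ∀ U : Subgroup Γ, U ≤ U₀ → HasDensity S.nm S.dim (S.MaxMod num U) 1) ∧
    (∀ l, ∃ d : Matrix (ι l) (ι l) (K l), Governs (V l) num d) ∧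
    ((∀ l, (V l).Good.Nonempty) → HasDensity S.nm S.dim {x | ∀ l, x ∈ (V l).Good} 1) := by
  obtain ⟨h1, h2, h3⟩ := Sheaf.main t_BLKR t_NILR t_CNJ S V num hnum
  refine ⟨h1, fun l => ?_, h3⟩
  obtain ⟨d, a1, a2, a3, a4, a5⟩ := h2 l
  refine ⟨d, a1, a2, fun x k => ?_, fun U hU hUo x hx k => ?_,
    fun U hU hUo x hx => (a4 U hU hUo x hx).1, a5⟩
  · rw [← jordanSum_eq, ← finrank_ker_eq]
    exact a3 x k
  · rw [← jordanSum_eq, ← finrank_ker_eq]
    exact (a4 U hU hUo x hx).2 k

end Pool.Agent.Results.MP_b685ef_ag.JordanTypesInFamilies
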