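import Pool.Agent.D0H93.SY.Crit

/-!
# Symmetric powers and the semisimplicity of Frobenius

Let `X`, `Y` be complete varieties over a finite field (`CVar`: the cohomology in the even degrees `Ev`, of
dimension `r` for `X`, and in the odd degrees `Od`, of dimension `s` for `X`, coefficients in an algebraically
closed field `E` of characteristic zero, with the injective Frobenius endomorphisms `Fe`, `Fo`). By the
Künneth formula and Macdonald's theorem the cohomology of `Y × Sym^n X` is `Coh Y X n`, the sum over `j ≤ n` of
`H^*(Y) ⊗ ⋀^j H^odd(X) ⊗ Sym^(n-j) H^ev(X)`, with the Frobenius `Frob Y X n`. The symmetric power is the space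
`SymP` of homogeneous polynomials in the vectors of a basis of `H^ev(X)`, on which the Frobenius acts by the
substitution of `Fe e_j` for `e_j` (`symOp`). Let `b_n` be the dimension of `H^*(Y × Sym^n X)`.

(1) If the Frobenius is semisimple on `H^*(X)` and `H^*(Y)`, it is semisimple on `H^*(Y × Sym^n X)`.

(2) Let `l` be an eigenvalue on `H^ev(X)` with a Jordan block of size at least two. Then for ALL `Y`, `n ≥ 0`
and `μ`: the multiplicity of `μ` on `H^*(Y × Sym^(n+1) X)` exceeds the dimension of the eigenspace of `μ` at
least by the multiplicity of `μ / l` on `H^*(Y × Sym^n X)`. (For `l = q ^ a`, `μ = q ^ i` and smooth projective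
`X`, `Y`: if for `X` the order of the pole of the zeta function at `a` is larger than the dimension of the space
of Tate classes in `H^(2a)`, then for `Y × Sym^(n+1) X` and every `i` the difference of these numbers is at
least the order of the pole of the zeta function of `Y × Sym^n X` at `i - a`.)

(3) If the Frobenius is not semisimple on `H^ev(X)` then for ALL `Y` and `n ≥ 0` every stable subspace of
`H^*(Y × Sym^(n+1) X)` on which it is semisimple has codimension at least `b_n`. (This is sharp: for `r = 2`,
`s = 0` and `Y` a point `b_(n+1) - b_n = 1`.) Such a subspace of `H^*(Y × Sym^n X)` has at most the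
proportion `(r - 1) / (n - s + r - 1)` of the dimension, for `n ≥ s`.

(4) If the Frobenius is not semisimple on `H^odd(X)` then every such subspace of `H^*(Y × Sym^(n+1) X)` has
codimension at least `b(Y) ∑_(i ≤ n) binom(s - 2, i) multichoose(r, n - i)`: this is `b_n` for a variety with
`r` and `s - 2` in place of `r` and `s`, for large `n` about a quarter of `b_(n+1)`.

(5) `b_n = b(Y) ∑_(j ≤ n) binom(s, j) multichoose(r, n - j)`.

(6) Criterion. For all `r ≥ 1`, `s`, `ε > 0` there is an `N` such that for all `X` with these Betti numbers,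
all `Y ≠ ∅` and all `n ≥ N`: if the part `ε` of `H^*(Y × Sym^n X)` is semisimple, the Frobenius is semisimple on
`H^ev(X)`; if the part `3 / 4 + ε` of it is semisimple, the Frobenius is semisimple on `H^*(X)`.

Proof. Let `F v = l v + v'`, `F v' = l v'`, so that `F ^ k v = l ^ k (v + (k / l) v')`. If a sum of eigenvectors
`∑ P_β` in `W ⊗ Sym^m` is divisible by the linear form of `v` then `∑ β ^ k P_β` is divisible by the linear form of
`v + (k / l) v'` for all `k`; restrict to a zero of this form which depends linearly on `k`: the exponential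
polynomial so obtained vanishes, hence all its coefficients do, and all `P_β` vanish on an open set. So a
semisimple stable subspace has intersection zero with the image of the multiplication by `v`. For the exterior
powers the same is done with the image of `x ↦ v ∧ x` on `⋀ R`, `R` a complement of the plane of `v, v'`: here
`v ∧ P_β = v' ∧ P_β = 0`. For (2): the multiplication by `v` sends the generalised eigenspace of `μ / l` into
that of `μ`.
-/

set_option autoImplicit false

open Module
open Pool.Agent.D0H93.SY

namespace Pool.Agent.Results.MP_b685ef_ag.SymmetricPowers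

/-- **Jordan blocks of the Frobenius and symmetric powers.** -/
theorem result {E : Type} [Field E] [IsAlgClosed E] [CharZero E] :
    -- (1) the semisimple case
    (∀ X Y : CVar E, IsSS X → IsSS Y → ∀ n : ℕ, (Frob Y X n).IsSemisimple) ∧
    -- (2) each eigenvalue
    (∀ (X : CVar E) (l : E), eig X.Fe l ≠ mult X.Fe l → ∀ (Y : CVar E) (n : ℕ) (μ : E),
      eig (Frob Y X (n + 1)) μ + mult (Frob Y X n) (μ / l) ≤ mult (Frob Y X (n + 1)) μ) ∧
    -- (3) the even cohomology
    (∀ X : CVar E, ¬ X.Fe.IsSemisimple →
      (∀ (Y : CVar E) (n : ℕ), SSCodim (Frob Y X (n + 1)) (finrank E (Coh Y X n))) ∧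
      ∀ (Y : CVar E) (n : ℕ), finrank E X.Od ≤ n → ∀ (U : Submodule E (Coh Y X n))
        (hU : U ∈ (Frob Y X n).invtSubmodule), Module.End.IsSemisimple ((Frob Y X n).restrict hU) →
        (n - finrank E X.Od + (finrank E X.Ev - 1)) * finrank E U ≤
          (finrank E X.Ev - 1) * finrank E (Coh Y X n)) ∧
    -- (4) the odd cohomology
    (∀ X : CVar E, ¬ X.Fo.IsSemisimple → ∀ (Y : CVar E) (n : ℕ), SSCodim (Frob Y X (n + 1))
      (betti Y * ∑ i ∈ Finset.range (n + 1),
        Nat.choose (finrank E X.Od - 2) i * Nat.multichoose (finrank E X.Ev) (n - i))) ∧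
    -- (5) the dimensions
    (∀ (X Y : CVar E) (n : ℕ), finrank E (Coh Y X n) = betti Y * ∑ j ∈ Finset.range (n + 1),
      Nat.choose (finrank E X.Od) j * Nat.multichoose (finrank E X.Ev) (n - j)) ∧
    -- (6) the criterion
    (∀ (r s : ℕ) (ε : ℝ), 1 ≤ r → 0 < ε → ∃ N : ℕ, ∀ X : CVar E, finrank E X.Ev = r → finrank E X.Od = s →
      ∀ Y : CVar E, 0 < betti Y → ∀ n ≥ N,
        (HasSS (Frob Y X n) (ε * finrank E (Coh Y X n)) → X.Fe.IsSemisimple) ∧
        (HasSS (Frob Y X n) ((3 / 4 + ε) * finrank E (Coh Y X n)) → IsSS X)) :=
  ⟨fun _ _ hX hY n => frob_ss hX hY n,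
    fun X _ hl Y n μ => refined X (hasBlock_of_ne hl) Y n μ,
    fun X h => ⟨fun Y n => even_law X h Y n, fun Y n hn U hU hs => rate X h Y n hn U hU hs⟩,
    fun X h Y n => odd_law X h Y n,
    fun X Y n => finrank_coh Y X n,
    fun r s ε hr hε => criterion r s hr ε hε⟩

end Pool.Agent.Results.MP_b685ef_ag.SymmetricPowers
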