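import Pool.Agent.D0H15.ZO.Main

/-!
# A zero-one law for the semisimplicity of Frobenius

Let `X` be a complete variety over a finite field, `V = ⨁ H^i(X̄)` its total `ℓ`-adic cohomology
(coefficients in an algebraically closed field `E` of characteristic zero) and `F` the Frobenius on `V`
(`CompleteVar`). By the Künneth formula the cohomology of `Y × X ^ n` is `Coh Y X n = V_Y ⊗ V ^ {⊗ n}`,
with the Frobenius `Frob Y X n`.

(1) Either the Frobenius is semisimple on `H^*(X)`, and then on `H^*(Y × X ^ n)` for all `n` and all `Y`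
with a semisimple Frobenius; or, for ALL complete varieties `Y` and all `n ≥ 1`, every Frobenius-stable
subspace of `H^*(Y × X ^ n)` on which the Frobenius is semisimple has dimension at most
`(C / √n) dim H^*(Y × X ^ n)`, where `C` depends only on the dimension `b` of `H^*(X)`.

(2) Let `X`, `Y` be smooth projective (`SmoothVar`: Poincaré duality and the unit of `H^0`). Let
`tateDim Y X n` be the dimension of the space of all Tate classes on `Y × X ^ n` (the classes in
`H^(2i)(i)` fixed by the Frobenius, all `i`) and let `poleOrder Y X n` be the sum of the orders of the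
poles of the zeta function of `Y × X ^ n` at all integers (by the purity theorem of Deligne `q ^ i` is an
eigenvalue only in the degree `2 i`). Either the Frobenius is semisimple on `H^*(X)`, and then the two
numbers are equal for all `n` and all `Y` with a semisimple Frobenius; or, for all `Y` and `n ≥ 1`,
`tateDim ≤ (C / √n) poleOrder`, where `C` depends only on the total Betti numbers `b`, `b'` of `X`, `Y`.

(3) For each `ε > 0` there is an `N`, which depends only on `ε`, `b` and `b'`, such that the Frobenius is
semisimple on `H^*(X)` as soon as for ONE `Y` and ONE `n ≥ N` the Tate classes (for instance classes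
of algebraic cycles) on `Y × X ^ n` account for the part `ε` of the orders of the poles.

Proof. Let `κ_k(W, μ)` be the dimension of the kernel of `(F - μ) ^ k` on `W`. If the Frobenius is not
semisimple on `V` there is an invariant plane with a Jordan block for an eigenvalue `λ₀`. The
function `κ_k` is subadditive in exact sequences, and for the block `S` one has
`κ_k(W ⊗ S, μ) ≤ κ_(k-1)(W, μ/λ₀) + κ_(k+1)(W, μ/λ₀)`: this is the step of a simple random walk on the
positive integers which is killed at zero. So the part of `W ⊗ V ^ {⊗ n}` in which `S` occurs `j` times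
contributes to `κ_1` at most the part `binom(j, [j/2]) / 2 ^ j ≤ 1 / √(j+1)` of its dimension. For
(2) the pieces in which `S` occurs rarely are exponentially small, and the multiplicity of `q ^ (k dim X)`
on `H^*(X ^ (2k))` is at least `b ^ (2k) / (k+1) ^ b` by duality and the Cauchy-Schwarz inequality.
-/

set_option autoImplicit false

open Module
open Pool.Agent.D0H15.ZO

namespace Pool.Agent.Results.MP_b685ef_ag.ZeroOneLaw

/-- **A zero-one law for the semisimplicity of Frobenius.** -/
theorem result {E : Type} [Field E] [IsAlgClosed E] [CharZero E] :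
    -- (1) complete varieties
    (∀ b : ℕ, ∃ C : ℝ, ∀ X : CompleteVar E, finrank E X.V = b → (IsSS X ∧ PowersSS X) ∨ FewSS C X) ∧
    -- (2) smooth projective varieties
    (∀ b b' : ℕ, ∃ C : ℝ, ∀ q : ℕ, 2 ≤ q → ∀ X : SmoothVar E q, finrank E X.V = b →
      (IsSS X.toCompleteVar ∧ TateEq X) ∨ FewTate C b' X) ∧
    -- (3) the criterion
    (∀ (b b' : ℕ) (ε : ℝ), 0 < ε → ∃ N : ℕ, ∀ q : ℕ, 2 ≤ q → ∀ X : SmoothVar E q, finrank E X.V = b →
      ManyTate ε N b' X → IsSS X.toCompleteVar) := by
  refine ⟨fun b => ?_, fun b b' => ?_, fun b b' ε hε => ?_⟩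
  · obtain ⟨C, hC⟩ := complete_law (E := E) b
    refine ⟨C, fun X hX => ?_⟩
    by_cases hs : X.F.IsSemisimple
    · exact Or.inl ⟨hs, fun Y hY n => pw_ss hY hs n⟩
    · exact Or.inr fun Y n hn => hC X hX hs Y n hn
  · obtain ⟨C, hC⟩ := smooth_law (E := E) b b'
    refine ⟨C, fun q hq X hX => ?_⟩
    by_cases hs : X.F.IsSemisimple
    · refine Or.inl ⟨hs, fun Y hY n => ?_⟩
      unfold tateDim poleOrder eigSum mulSum
      refine Finset.sum_congr rfl fun i _ => ?_
      have h1 : (Frob Y.toCompleteVar X.toCompleteVar n).IsSemisimple := pw_ss hY hs n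
      rw [(Module.End.isFinitelySemisimple_iff_isSemisimple.2 h1).maxGenEigenspace_eq_eigenspace]
    · exact Or.inr fun Y hY n hn => (hC q hq X hX hs Y hY n hn).2
  · obtain ⟨C, hC⟩ := smooth_law (E := E) b b'
    obtain ⟨N, hN⟩ := exists_nat_gt ((C / ε) ^ 2)
    refine ⟨N + 1, fun q hq X hX hex => ?_⟩
    by_contra hs
    obtain ⟨Y, hY, n, hn, hle⟩ := hex
    obtain ⟨hpos, h1⟩ := hC q hq X hX hs Y hY n (by omega)
    have hpos' : (0 : ℝ) < poleOrder Y X n := by exact_mod_cast hpos
    have h2 : ε ≤ C / Real.sqrt n := by
      by_contra h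
      push Not at h
      have := mul_lt_mul_of_pos_right h hpos'
      linarith
    have hn' : (N : ℝ) < n := by exact_mod_cast (by omega : N < n)
    have hn0 : (0 : ℝ) < n := lt_of_le_of_lt (Nat.cast_nonneg N) hn'
    have hs0 : 0 < Real.sqrt n := Real.sqrt_pos.2 hn0
    rw [le_div_iff₀ hs0] at h2
    have h3 : Real.sqrt n ≤ C / ε := by
      rw [le_div_iff₀ hε, mul_comm]
      exact h2
    have h4 : (n : ℝ) ≤ (C / ε) ^ 2 := by
      rw [← Real.sq_sqrt hn0.le]
      exact pow_le_pow_left₀ hs0.le h3 2
    linarith

end Pool.Agent.Results.MP_b685ef_ag.ZeroOneLaw
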